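import Mathlib
import Pool.Agent.Lib.MP_fe8d1b_al.BLO
import Pool.Agent.Lib.MP_fe8d1b_al.CNV
import Pool.Agent.Lib.MP_fe8d1b_al.COV
import Pool.Agent.Lib.MP_fe8d1b_al.DBL
import Pool.Agent.Lib.MP_fe8d1b_al.FIN
import Pool.Agent.Lib.MP_fe8d1b_al.GPA
import Pool.Agent.Lib.MP_fe8d1b_al.GPW
import Pool.Agent.Lib.MP_fe8d1b_al.HP
import Pool.Agent.Lib.MP_fe8d1b_al.LEN
import Pool.Agent.Lib.MP_fe8d1b_al.NCT
import Pool.Agent.Lib.MP_fe8d1b_al.NSC
import Pool.Agent.Lib.MP_fe8d1b_al.PH1
import Pool.Agent.Lib.MP_fe8d1b_al.PH2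
import Pool.Agent.Lib.MP_fe8d1b_al.REP
import Pool.Agent.Lib.MP_fe8d1b_al.ST1
import Pool.Agent.Lib.MP_fe8d1b_al.ST2
import Pool.Agent.Lib.MP_fe8d1b_al.ST3
import Pool.Agent.Lib.MP_fe8d1b_al.ST4
import Pool.Agent.Lib.MP_fe8d1b_al.ST5

set_option autoImplicit false

open Pool.Agent.Lib.MPfe8d1b

/-- Let `Γ` be a finite incomplete triangle-free graph without separating cliques and `K` a clique
such that every vertex outside `K` has a twin outside `K` or is dominated by a vertex of `K`. Then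
`Γ` has the property `P` of the problem (in particular it is RAAGedy). If moreover the vertices
outside `K` which are not dominated by `K` induce a preconnected graph, then `Γ` is the end of a
chain of cone-offs which starts with a square and all of whose members have the property `P`. -/
theorem Pool.Agent.Results.MP_fe8d1b_al.TwinsAndDominatedVertices.result
    {V : Type} [Finite V] (Γ : SimpleGraph V) (K : Set V)
    (hfree : Γ.CliqueFree 3) (hinc : Γ ≠ ⊤) (hsep : NoSeparatingClique Γ) (hK : Γ.IsClique K)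
    (hcov : ∀ x, x ∉ K → HasTwin Γ K x ∨ Dominated Γ K x) :
    HasP Γ ∧
      ((Γ.induce {x | x ∉ K ∧ ¬ Dominated Γ K x}).Preconnected → BuiltInP Γ) := by
  have hBLO : SpecBLO := specBLO specLEN specGPW specGPA specPH1 specPH2
  have hCOV : SpecCOV := specCOV specLEN hBLO (specDBL specLEN)
  refine ⟨⟨inferInstance, hfree, hinc, hsep, ?_⟩, fun hpre => ?_⟩
  · obtain ⟨U, hU, Δ, hQ⟩ := hCOV Γ K hK hcov
    exact ⟨U, hU, Δ, specLEN.wd _ _ (specLEN.gen _) (specLEN.gen _) hQ⟩
  · exact specFIN specLEN hCOV (specHP specLEN hCOV (specNSC specREP) specCNV) (specST1 specNCT)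
      (specST2 specNCT) specST3 (specST4 specREP) specST5 specCNV Γ K hfree hinc hsep hK hcov hpre
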